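import Pool.Agent.H445.MT.Mod

/-!
# Models with exponents
-/

set_option autoImplicit false

open Set Filter Module
open scoped Topology ENNReal PeriodPair

noncomputable section

namespace Pool.Agent.H445.MT

open H667R3 Pool.Agent.W245.EB
open Pool.Agent.Y685 Pool.Agent.TH813.Ell Pool.Agent.Y776 Pool.Agent.Y776.Fam Pool.Agent.Y776.AxJ
open Pool.Agent.TH813.Rel (MK DF subset_cl rk_le_of_subset_cl)
open Pool.Agent.H445.MJ Pool.Agent.H445.MX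

variable {n s : ℕ}

theorem rk_of_modelsE {L : Fin n → PeriodPair} (h : ∀ i, 0 < ((L i).ω₂ / (L i).ω₁).im)
    (hal : ∀ i, IsAlgebraic ℚ (L i).g₂ ∧ IsAlgebraic ℚ (L i).g₃) {w : Fin s → ℂ}
    (hw : ∀ k, IsAlgebraic ℚ (Complex.exp (w k))) :
    (MK (⊥ : IntermediateField ℚ ℂ)).eRk ({tpi} ∪ (MJ.NS (range fun i => (L i).ω₂ / (L i).ω₁) ∪ ET w)) ≤
      (MK (⊥ : IntermediateField ℚ ℂ)).eRk (PrS L ∪ range w) := by
  apply rk_le_of_subset_cl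
  rintro x (hx | hx | ⟨k, rfl⟩ | ⟨k, rfl⟩)
  · exact subset_cl _ (Or.inl (Or.inl hx))
  · obtain ⟨_, ⟨i, rfl⟩, hx⟩ := mem_iUnion₂.1 hx
    rw [← mem_clo_iff]
    exact N1_mem_clo (h i) (hal i).1 (hal i).2 (fun y hy => Or.inl (Or.inr (mem_iUnion.2 ⟨i, hy⟩))) hx
  · exact subset_cl _ (Or.inr ⟨k, rfl⟩)
  · exact alg_mem_cl (hw k) _

theorem exists_modelsE {τ : Fin n → ℂ} (hτ : ∀ i, 0 < (τ i).im) (hj : ∀ i, IsAlgebraic ℚ (jf (τ i)))
    (w : Fin s → ℂ) :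
    ∃ L : Fin n → PeriodPair, (∀ i, (L i).ω₂ / (L i).ω₁ = τ i) ∧
    (∀ i, IsAlgebraic ℚ (L i).g₂ ∧ IsAlgebraic ℚ (L i).g₃) ∧
    (MK (⊥ : IntermediateField ℚ ℂ)).eRk (PrS L ∪ range w) ≤
      (MK (⊥ : IntermediateField ℚ ℂ)).eRk ({tpi} ∪ (MJ.NS (range τ) ∪ ET w)) := by
  choose L h1 h2 h3 h4 using fun i => exists_model (hτ i) (hj i)
  refine ⟨L, h1, fun i => ⟨h2 i, h3 i⟩, ?_⟩
  apply rk_le_of_subset_cl
  rintro x ((hx | hx) | ⟨k, rfl⟩)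
  · exact subset_cl _ (Or.inl hx)
  · obtain ⟨i, hx⟩ := mem_iUnion.1 hx
    rw [← mem_clo_iff]
    exact h4 i _ (Or.inl rfl) (fun y hy => Or.inr (Or.inl (mem_iUnion₂.2 ⟨τ i, ⟨i, rfl⟩, hy⟩))) hx
  · exact subset_cl _ (Or.inr (Or.inr (Or.inl ⟨k, rfl⟩)))

/-- the numbers of the field of definition are algebraic if and only if the rank is zero -/
theorem ty_zero_iffE {τ : Fin n → ℂ} {t : Fin s → ℂ} :
    (MK (⊥ : IntermediateField ℚ ℂ)).eRk (TY (range τ) t) ≤ ((0 : ℕ) : ℕ∞) ↔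
      (∀ i, IsAlgebraic ℚ (jf (τ i))) ∧ ∀ k, IsAlgebraic ℚ (Complex.exp (t k)) := by
  rw [Nat.cast_zero, nonpos_iff_eq_zero, Matroid.eRk_eq_zero_iff (by
    intro x _
    exact mem_univ x)]
  constructor
  · intro h
    have h0 : (MK (⊥ : IntermediateField ℚ ℂ)).eRk (TY (range τ) t) = 0 :=
      (Matroid.eRk_eq_zero_iff (by intro x _; exact mem_univ x)).2 h
    have h1 := (trdeg_iff (S := TY (range τ) t) 0 0).2 (by rw [h0]; simp)
    simp only [Nat.cast_zero, add_zero, nonpos_iff_eq_zero] at h1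
    rw [trdeg_eq_zero_iff] at h1
    have key : ∀ x ∈ TY (range τ) t, IsAlgebraic ℚ x := by
      intro x hx
      have h2 : x ∈ IntermediateField.adjoin ℚ (TY (range τ) t) := IntermediateField.subset_adjoin ℚ _ hx
      have h3 := h1.isAlgebraic ⟨x, h2⟩
      exact (isAlgebraic_algebraMap_iff (algebraMap (IntermediateField.adjoin ℚ (TY (range τ) t)) ℂ).injective).2 h3
    exact ⟨fun i => key _ (Or.inl ⟨τ i, ⟨i, rfl⟩, rfl⟩), fun k => key _ (Or.inr ⟨k, rfl⟩)⟩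
  · rintro ⟨h, h'⟩ x (⟨_, ⟨i, rfl⟩, rfl⟩ | ⟨i, rfl⟩)
    · have h1 := alg_mem_cl (h i) ∅
      rwa [Matroid.closure_empty] at h1
    · have h1 := alg_mem_cl (h' i) ∅
      rwa [Matroid.closure_empty] at h1

end Pool.Agent.H445.MT
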