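import Pool.Agent.H445.MT.ModE

/-!
# Bounds and examples
-/

set_option autoImplicit false

open Set Filter Module
open scoped Topology ENNReal PeriodPair

noncomputable section

namespace Pool.Agent.H445.MT

open H667R3 Pool.Agent.W245.EB
open Pool.Agent.Y685 Pool.Agent.TH813.Ell Pool.Agent.Y776 Pool.Agent.Y776.Fam Pool.Agent.Y776.AxJ
open Pool.Agent.TH813.Rel (MK DF subset_cl rk_le_of_subset_cl)
open Pool.Agent.H445.MJ Pool.Agent.H445.MX

variable {n s m r c e : ℕ} {P : Set ℂ} {B : Submodule ℚ ℂ}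

theorem VT_shift : VT P B (c + e) n s (m + e) r = VT P B c n s m r := by
  ext w
  have key : ∀ x : ℕ∞, ∀ N : ℕ, x + ((m + e : ℕ) : ℕ∞) ≤ ((N + (c + e) : ℕ) : ℕ∞) ↔
      x + (m : ℕ∞) ≤ ((N + c : ℕ) : ℕ∞) := by
    intro x N
    rw [show N + (c + e) = N + c + e from by omega, Nat.cast_add (N + c) e, Nat.cast_add m e, ← add_assoc]
    exact ENat.add_le_add_iff_right (ENat.natCast_ne_top e)
  constructor
  · rintro ⟨⟨h1, h2, h3⟩, h4⟩
    exact ⟨⟨h1, h2, (key _ _).1 h3⟩, h4⟩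
  · rintro ⟨⟨h1, h2, h3⟩, h4⟩
    exact ⟨⟨h1, h2, (key _ _).2 h3⟩, h4⟩

theorem VT_bound' (hP : 2 * (Real.pi : ℂ) * Complex.I ∈ P) (h : (VT P B (1 + e) n s m r).Nonempty) :
    m ≤ 3 * n + s + e := by
  rcases le_total m e with h1 | h1
  · omega
  · obtain ⟨m', rfl⟩ : ∃ m', m = m' + e := ⟨m - e, by omega⟩
    rw [VT_shift] at h
    have := VT_bound hP h
    omega

/-- there are products with complex multiplication -/
theorem VT_zero (hP : P = {2 * (Real.pi : ℂ) * Complex.I}) (n s r e : ℕ) : (VT P B (1 + e) n s 0 r).Nonempty := by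
  refine VT_extend (n := 0) (s := 0) (by rw [hP]; rfl) (Nat.zero_le n) (Nat.zero_le s) ?_
  rw [VT_nonempty]
  refine ⟨Fin.elim0, Fin.elim0, ⟨⟨finite_range _, ?_, ?_⟩, ?_⟩⟩
  · rintro _ ⟨i, -⟩
    exact i.elim0
  · have h1 : P ∪ (MJ.NS (range (Fin.elim0 : Fin 0 → ℂ)) ∪ ET (Fin.elim0 : Fin 0 → ℂ)) = P := by
      have e1 : range (Fin.elim0 : Fin 0 → ℂ) = ∅ := by
        ext x
        exact ⟨fun ⟨i, _⟩ => i.elim0, fun h => h.elim⟩
      have e2 : ET (Fin.elim0 : Fin 0 → ℂ) = ∅ := by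
        ext x
        constructor
        · rintro (⟨i, -⟩ | ⟨i, -⟩) <;> exact i.elim0
        · exact fun h => h.elim
      rw [e1, e2]
      simp [MJ.NS]
    rw [h1, hP]
    refine (add_le_add ((MK _).eRk_le_encard _) le_rfl).trans ?_
    rw [encard_singleton]
    have : ((1 : ℕ) : ℕ∞) + ((0 : ℕ) : ℕ∞) ≤
        ((cntC (range (Fin.elim0 : Fin 0 → ℂ)) + dimQ B (Fin.elim0 : Fin 0 → ℂ) + (1 + e) : ℕ) : ℕ∞) := by
      exact_mod_cast (by omega)
    simpa using this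
  · have h1 : TY (range (Fin.elim0 : Fin 0 → ℂ)) (Fin.elim0 : Fin 0 → ℂ) = ∅ := by
      ext x
      constructor
      · rintro (⟨_, ⟨i, -⟩, -⟩ | ⟨i, -⟩) <;> exact i.elim0
      · exact fun h => h.elim
    rw [h1, Matroid.eRk_empty]
    exact zero_le

end Pool.Agent.H445.MT
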