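import Pool.Agent.H445.MT.Red

/-!
# Failures over fields of bounded transcendence degree
-/

set_option autoImplicit false

open Set Filter Module
open scoped Topology ENNReal

noncomputable section

namespace Pool.Agent.H445.MT

open H667R3 Pool.Agent.W245.EB
open Pool.Agent.Y685 Pool.Agent.TH813.Ell Pool.Agent.Y776 Pool.Agent.Y776.Fam Pool.Agent.Y776.AxJ
open Pool.Agent.TH813.Rel (MK subset_cl rk_le_of_subset_cl)
open Pool.Agent.H445.MJ Pool.Agent.H445.MX

variable {n s m c r : ℕ} {K : Subfield ℂ} {P : Set ℂ} {B : Submodule ℚ ℂ}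

/-- failures with defect at least `m` over fields of transcendence degree at most `r` -/
structure BadT (P : Set ℂ) (B : Submodule ℚ ℂ) (c m r : ℕ) (S : Set ℂ) (t : Fin s → ℂ) : Prop where
  bad : BadX P B c m S t
  ty : (MK (⊥ : IntermediateField ℚ ℂ)).eRk (TY S t) ≤ (r : ℕ∞)

/-- the set of the failures -/
def VT (P : Set ℂ) (B : Submodule ℚ ℂ) (c n s m r : ℕ) : Set (Fin (n + s) → ℂ) :=
  {w | BadT P B c m r (range fun i => w (Fin.castAdd s i)) (fun i => w (Fin.natAdd n i))}

theorem append_mem_VT {z : Fin n → ℂ} {t : Fin s → ℂ} : Fin.append z t ∈ VT P B c n s m r ↔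
    BadT P B c m r (range z) t := by
  unfold VT
  rw [mem_ofPred_eq]
  simp only [Fin.append_left, Fin.append_right]

theorem VT_nonempty : (VT P B c n s m r).Nonempty ↔
    ∃ (z : Fin n → ℂ) (t : Fin s → ℂ), BadT P B c m r (range z) t := by
  constructor
  · rintro ⟨w, hw⟩
    exact ⟨_, _, hw⟩
  · rintro ⟨z, t, h⟩
    exact ⟨_, append_mem_VT.2 h⟩

/-- the admissible levels -/
def LevT (P : Set ℂ) (B : Submodule ℚ ℂ) (c n s m r : ℕ) : Set ℕ :=
  {d | d ≤ r ∧ ∃ b a : ℕ, b ≤ n ∧ a ≤ s ∧ b + a = d ∧ (VT P B c (n - b) (s - a) (m + d) (r - d)).Nonempty}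

theorem LevT_bdd : BddAbove (LevT P B c n s m r) := ⟨r, fun _ h => h.1⟩

theorem BadT.mono {m' r' : ℕ} {S : Set ℂ} {t : Fin s → ℂ} (h : BadT P B c m r S t) (hm : m' ≤ m) (hr : r ≤ r') :
    BadT P B c m' r' S t := by
  refine ⟨⟨h.bad.fin, h.bad.im, le_trans ?_ h.bad.rk⟩, h.ty.trans (by exact_mod_cast hr)⟩
  gcongr

/-- adding the exponent zero -/
theorem BadT.zero {S : Set ℂ} {t : Fin s → ℂ} (h : BadT P B c m r S t) :
    BadT P B c m r S (Fin.snoc t 0 : Fin (s + 1) → ℂ) := by
  have hET : ET (Fin.snoc t 0 : Fin (s + 1) → ℂ) ⊆ ET t ∪ {0, 1} := by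
    rintro _ (⟨i, rfl⟩ | ⟨i, rfl⟩)
    · refine Fin.lastCases ?_ (fun i => ?_) i
      · rw [Fin.snoc_last]
        exact Or.inr (Or.inl rfl)
      · rw [Fin.snoc_castSucc]
        exact Or.inl (Or.inl ⟨i, rfl⟩)
    · beta_reduce
      refine Fin.lastCases ?_ (fun i => ?_) i
      · rw [Fin.snoc_last, Complex.exp_zero]
        exact Or.inr (Or.inr rfl)
      · rw [Fin.snoc_castSucc]
        exact Or.inl (Or.inr ⟨i, rfl⟩)
  have hEX : EXs (Fin.snoc t 0 : Fin (s + 1) → ℂ) ⊆ EXs t ∪ {1} := by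
    rintro _ ⟨i, rfl⟩
    beta_reduce
    refine Fin.lastCases ?_ (fun i => ?_) i
    · rw [Fin.snoc_last, Complex.exp_zero]
      exact Or.inr rfl
    · rw [Fin.snoc_castSucc]
      exact Or.inl ⟨i, rfl⟩
  have hdim : dimQ B t ≤ dimQ B (Fin.snoc t 0 : Fin (s + 1) → ℂ) := by
    obtain ⟨σ, hσ, -⟩ := exists_sub B t
    exact le_dimQ hσ fun i => ⟨Fin.castSucc (σ i), by rw [Fin.snoc_castSucc]⟩
  refine ⟨⟨h.bad.fin, h.bad.im, ?_⟩, ?_⟩
  · have h1 : (MK (⊥ : IntermediateField ℚ ℂ)).eRk (P ∪ (MJ.NS S ∪ ET (Fin.snoc t 0 : Fin (s + 1) → ℂ))) ≤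
        (MK (⊥ : IntermediateField ℚ ℂ)).eRk (P ∪ (MJ.NS S ∪ ET t)) := by
      apply rk_le_of_subset_cl
      rintro x (hx | hx | hx)
      · exact subset_cl _ (Or.inl hx)
      · exact subset_cl _ (Or.inr (Or.inl hx))
      · rcases hET hx with hx | rfl | rfl
        · exact subset_cl _ (Or.inr (Or.inr hx))
        · exact alg_mem_cl isAlgebraic_zero _
        · exact alg_mem_cl isAlgebraic_one _
    refine (add_le_add h1 le_rfl).trans (h.bad.rk.trans ?_)
    exact_mod_cast (by omega : cntC S + dimQ B t + c ≤ cntC S + dimQ B (Fin.snoc t 0 : Fin (s + 1) → ℂ) + c)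
  · refine le_trans ?_ h.ty
    apply rk_le_of_subset_cl
    rintro x (hx | hx)
    · exact subset_cl _ (Or.inl hx)
    · rcases hEX hx with hx | rfl
      · exact subset_cl _ (Or.inr hx)
      · exact alg_mem_cl isAlgebraic_one _

/-- the lattice of the Gaussian integers -/
theorem LC_I : LC Complex.I = sq 1 one_ne_zero :=
  LC_eq (by simp) rfl (by change Complex.I * 1 = Complex.I; rw [mul_one])

theorem h1_I : Pool.Agent.Y685.h1 Complex.I = Real.pi := by
  unfold Pool.Agent.Y685.h1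
  rw [LC_I]
  have := legendre_sq (c := 1) (hc := one_ne_zero)
  rwa [one_mul] at this

theorem g₃_I : (LC Complex.I).g₃ = 0 := by
  rw [LC_I]
  exact g₃_eq_zero CM_sq

theorem CMp_I : CMp Complex.I := ⟨1, 0, 1, Or.inl one_ne_zero, by simp⟩

theorem jf_I : jf Complex.I = 1728 := by
  have hd : dlf Complex.I ≠ 0 := dlf_ne (by simp)
  unfold jf
  unfold dlf at hd
  rw [g₃_I] at hd ⊢
  have h2 : (LC Complex.I).g₂ ^ 3 - 27 * 0 ^ 2 = (LC Complex.I).g₂ ^ 3 := by ring
  rw [h2] at hd ⊢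
  rw [mul_div_assoc, div_self hd, mul_one]

theorem cntC_empty : cntC ∅ = 0 := by
  unfold cntC oN oC
  simp

theorem cntC_I : cntC {Complex.I} = 1 := by
  have h1 : oN {Complex.I} = ∅ := by
    unfold oN
    rw [image_eq_empty, eq_empty_iff_forall_notMem]
    rintro z ⟨rfl, h⟩
    exact h CMp_I
  have h2 : oC {Complex.I} = {orb Complex.I} := by
    unfold oC
    ext O
    constructor
    · rintro ⟨z, ⟨rfl, -⟩, rfl⟩
      rfl
    · rintro rfl
      exact ⟨_, ⟨rfl, CMp_I⟩, rfl⟩
  rw [cntC, h1, h2, ncard_empty, ncard_singleton]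

/-- adding the curve with complex multiplication by the Gaussian integers -/
theorem BadT.cm (hP : 2 * (Real.pi : ℂ) * Complex.I ∈ P) {t : Fin s → ℂ} (h : BadT P B c m r ∅ t) :
    BadT P B c m r {Complex.I} t := by
  have hIalg : IsAlgebraic ℚ Complex.I :=
    ⟨Polynomial.X ^ 2 + 1, (Polynomial.monic_X_pow_add (by simp)).ne_zero, by simp⟩
  refine ⟨⟨finite_singleton _, ?_, ?_⟩, ?_⟩
  · rintro z rfl
    simp
  · have h1 : P ∪ (MJ.NS {Complex.I} ∪ ET t) ⊆
        (MK (⊥ : IntermediateField ℚ ℂ)).closure (insert ((LC Complex.I).g₂) (P ∪ (MJ.NS ∅ ∪ ET t))) := by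
      have e1 : MJ.NS ({Complex.I} : Set ℂ) = N1 Complex.I := by simp [MJ.NS]
      rw [e1]
      rintro x (hx | (rfl | rfl | rfl | rfl) | hx)
      · exact subset_cl _ (Or.inr (Or.inl hx))
      · exact alg_mem_cl hIalg _
      · -- the quasi-period is `π`
        rw [h1_I, ← mem_clo_iff]
        have h2 : 2 * (Real.pi : ℂ) * Complex.I ∈
            clo ⊥ (insert ((LC Complex.I).g₂) (P ∪ (MJ.NS ∅ ∪ ET t))) :=
          subset_clo (Or.inr (Or.inl hP))
        have h3 : Complex.I ∈ clo ⊥ (insert ((LC Complex.I).g₂) (P ∪ (MJ.NS ∅ ∪ ET t))) := by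
          rw [mem_clo_iff]
          exact alg_mem_cl hIalg _
        have h4 : (Real.pi : ℂ) = 2 * (Real.pi : ℂ) * Complex.I / (2 * Complex.I) := by
          field_simp
        rw [h4]
        exact div_mem h2 (mul_mem (ofNat_mem _ 2) h3)
      · exact subset_cl _ (Or.inl rfl)
      · rw [g₃_I]
        exact alg_mem_cl isAlgebraic_zero _
      · exact subset_cl _ (Or.inr (Or.inr (Or.inr hx)))
    have h2 := h.bad.rk
    rw [cntC_empty] at h2
    rw [cntC_I]
    calc (MK (⊥ : IntermediateField ℚ ℂ)).eRk (P ∪ (MJ.NS {Complex.I} ∪ ET t)) + m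
        ≤ ((MK (⊥ : IntermediateField ℚ ℂ)).eRk (P ∪ (MJ.NS ∅ ∪ ET t)) + 1) + m := by
          gcongr
          exact (rk_le_of_subset_cl h1).trans ((MK _).eRk_insert_le_add_one _ _)
      _ = ((MK (⊥ : IntermediateField ℚ ℂ)).eRk (P ∪ (MJ.NS ∅ ∪ ET t)) + m) + 1 := by ring
      _ ≤ ((0 + dimQ B t + c : ℕ) : ℕ∞) + 1 := by gcongr
      _ = ((1 + dimQ B t + c : ℕ) : ℕ∞) := by
          rw [← Nat.cast_one, ← Nat.cast_add]
          congr 1
          omega
  · refine le_trans ?_ h.ty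
    apply rk_le_of_subset_cl
    rintro x (⟨y, rfl, rfl⟩ | hx)
    · rw [jf_I]
      have : IsAlgebraic ℚ ((1728 : ℕ) : ℂ) := isAlgebraic_natCast 1728
      exact alg_mem_cl (by exact_mod_cast this) _
    · exact subset_cl _ (Or.inr hx)

/-- more points and exponents -/
theorem VT_extend (hP : 2 * (Real.pi : ℂ) * Complex.I ∈ P) {n' s' : ℕ} (hn : n ≤ n') (hs : s ≤ s')
    (h : (VT P B c n s m r).Nonempty) : (VT P B c n' s' m r).Nonempty := by
  rw [VT_nonempty] at h ⊢
  have h1 : ∃ (z : Fin n' → ℂ) (t : Fin s → ℂ), BadT P B c m r (range z) t := by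
    induction n', hn using Nat.le_induction with
    | base => exact h
    | succ k hk ih =>
      obtain ⟨z, t, hz⟩ := ih
      rcases Nat.eq_zero_or_pos k with rfl | hk0
      · have e : range z = ∅ := by
          ext x
          constructor
          · rintro ⟨i, -⟩
            exact i.elim0
          · exact fun h => h.elim
        rw [e] at hz
        refine ⟨fun _ => Complex.I, t, ?_⟩
        have e2 : range (fun _ : Fin (0 + 1) => Complex.I) = {Complex.I} := by
          ext x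
          constructor
          · rintro ⟨i, rfl⟩
            rfl
          · rintro rfl
            exact ⟨0, rfl⟩
        rw [e2]
        exact hz.cm hP
      · refine ⟨Fin.snoc z (z ⟨0, hk0⟩), t, ?_⟩
        have e2 : range (Fin.snoc z (z ⟨0, hk0⟩) : Fin (k + 1) → ℂ) = range z := by
          rw [range_snoc]
          ext x
          constructor
          · rintro (h | h)
            · exact h
            · rw [mem_singleton_iff] at h
              exact ⟨_, h.symm⟩
          · exact fun h => Or.inl h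
        rw [e2]
        exact hz
  clear h
  induction s', hs using Nat.le_induction with
  | base => exact h1
  | succ k hk ih =>
    obtain ⟨z, t, hz⟩ := ih
    exact ⟨z, _, hz.zero⟩

theorem VT_mono {m' r' : ℕ} (hm : m' ≤ m) (hr : r ≤ r') : VT P B c n s m r ⊆ VT P B c n s m' r' :=
  fun _ hw => BadT.mono hw hm hr

theorem LevT_down (hP : 2 * (Real.pi : ℂ) * Complex.I ∈ P) {d e : ℕ} (hed : e ≤ d)
    (hd : d ∈ LevT P B c n s m r) : e ∈ LevT P B c n s m r := by
  obtain ⟨hr, b, a, h1, h2, rfl, h3⟩ := hd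
  refine ⟨hed.trans hr, min b e, e - min b e, by omega, by omega, by omega, ?_⟩
  exact (VT_extend hP (by omega) (by omega) h3).mono (VT_mono (by omega) (by omega))

end Pool.Agent.H445.MT
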