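import Pool.Agent.H445.MT.Uni

/-!
# Models of elliptic curves over the algebraic numbers
-/

set_option autoImplicit false

open Set Filter Module
open scoped Topology ENNReal PeriodPair

noncomputable section

namespace Pool.Agent.H445.MT

open H667R3 Pool.Agent.W245.EB
open Pool.Agent.Y685 Pool.Agent.TH813.Ell Pool.Agent.Y776 Pool.Agent.Y776.Fam Pool.Agent.Y776.AxJ
open Pool.Agent.TH813.Rel (MK DF subset_cl rk_le_of_subset_cl)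
open Pool.Agent.H445.MJ Pool.Agent.H445.MX
open Pool.Agent.Y119.MD (eta_scale g2_scale g3_scale)

/-- the number `2πi` -/
abbrev tpi : ℂ := 2 * (Real.pi : ℂ) * Complex.I

/-- the periods and quasi-periods of a lattice -/
def Pr (L : PeriodPair) : Set ℂ := {L.ω₁, L.ω₂, eta L L.ω₁, eta L L.ω₂}

theorem Pr_finite (L : PeriodPair) : (Pr L).Finite := by
  unfold Pr
  exact (((Set.finite_singleton _).insert _).insert _).insert _

/-- algebraic numbers belong to all the fields -/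
theorem alg_mem_clo {A : Set ℂ} {x : ℂ} (hx : IsAlgebraic ℚ x) : x ∈ clo ⊥ A := by
  rw [mem_clo_iff]
  exact alg_mem_cl hx _

/-- roots -/
theorem root_mem_clo {A : Set ℂ} {x : ℂ} {k : ℕ} (hk : k ≠ 0) (hx : x ^ k ∈ clo ⊥ A) : x ∈ clo ⊥ A := by
  intro D hD h
  rcases eq_or_ne x 0 with rfl | h0
  · exact map_zero D
  have h1 := hx D hD h
  rw [D.leibniz_pow, smul_eq_mul, nsmul_eq_mul] at h1
  have h2 : (k : ℂ) ≠ 0 := Nat.cast_ne_zero.2 hk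
  exact ((mul_eq_zero.1 ((mul_eq_zero.1 h1).resolve_left h2)).resolve_left (pow_ne_zero _ h0))

/-- a lattice and its normalized lattice -/
theorem lat_scale {L : PeriodPair} (h : 0 < (L.ω₂ / L.ω₁).im) :
    L.ω₁ ≠ 0 ∧ ∀ z, z ∈ (LC (L.ω₂ / L.ω₁)).lattice ↔ L.ω₁ * z ∈ L.lattice := by
  have h0 : L.ω₁ ≠ 0 := by
    intro h0
    rw [h0, div_zero] at h
    exact lt_irrefl _ h
  refine ⟨h0, fun z => ?_⟩
  rw [mem_LC h, PeriodPair.mem_lattice]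
  constructor
  · rintro ⟨m, n, rfl⟩
    exact ⟨m, n, by field_simp⟩
  · rintro ⟨m, n, hz⟩
    refine ⟨m, n, mul_left_cancel₀ h0 ?_⟩
    rw [← hz]
    field_simp

/-- the modular invariant of a lattice in terms of `g₂` and `g₃` -/
theorem jf_scale {L : PeriodPair} (h : 0 < (L.ω₂ / L.ω₁).im) :
    jf (L.ω₂ / L.ω₁) = 1728 * L.g₂ ^ 3 / (L.g₂ ^ 3 - 27 * L.g₃ ^ 2) := by
  obtain ⟨h0, h1⟩ := lat_scale h
  rw [g2_scale h0 h1, g3_scale h0 h1, jf]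
  have e1 : ((L.ω₁ ^ 4)⁻¹ * (LC (L.ω₂ / L.ω₁)).g₂) ^ 3 =
      (L.ω₁ ^ 12)⁻¹ * (LC (L.ω₂ / L.ω₁)).g₂ ^ 3 := by
    rw [mul_pow, inv_pow, ← pow_mul]
  have e2 : ((L.ω₁ ^ 6)⁻¹ * (LC (L.ω₂ / L.ω₁)).g₃) ^ 2 =
      (L.ω₁ ^ 12)⁻¹ * (LC (L.ω₂ / L.ω₁)).g₃ ^ 2 := by
    rw [mul_pow, inv_pow, ← pow_mul]
  rw [e1, e2]
  have h2 : (L.ω₁ ^ 12)⁻¹ ≠ 0 := inv_ne_zero (pow_ne_zero _ h0)
  have e3 : 1728 * ((L.ω₁ ^ 12)⁻¹ * (LC (L.ω₂ / L.ω₁)).g₂ ^ 3) = (L.ω₁ ^ 12)⁻¹ * (1728 * (LC (L.ω₂ / L.ω₁)).g₂ ^ 3) := by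
    ring
  have e4 : (L.ω₁ ^ 12)⁻¹ * (LC (L.ω₂ / L.ω₁)).g₂ ^ 3 - 27 * ((L.ω₁ ^ 12)⁻¹ * (LC (L.ω₂ / L.ω₁)).g₃ ^ 2) =
      (L.ω₁ ^ 12)⁻¹ * ((LC (L.ω₂ / L.ω₁)).g₂ ^ 3 - 27 * (LC (L.ω₂ / L.ω₁)).g₃ ^ 2) := by
    ring
  rw [e3, e4, mul_div_mul_left _ _ h2]

theorem jf_alg {L : PeriodPair} (h : 0 < (L.ω₂ / L.ω₁).im) (h2 : IsAlgebraic ℚ L.g₂) (h3 : IsAlgebraic ℚ L.g₃) :
    IsAlgebraic ℚ (jf (L.ω₂ / L.ω₁)) := by
  rw [jf_scale h, div_eq_mul_inv]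
  have e1 : IsAlgebraic ℚ ((1728 : ℕ) : ℂ) := isAlgebraic_natCast 1728
  have e2 : IsAlgebraic ℚ ((27 : ℕ) : ℂ) := isAlgebraic_natCast 27
  have h4 := (e1.mul (h2.pow 3)).mul ((h2.pow 3).sub (e2.mul (h3.pow 2))).inv
  exact_mod_cast h4

/-- the numbers of the normalized lattice -/
theorem N1_mem_clo {A : Set ℂ} {L : PeriodPair} (h : 0 < (L.ω₂ / L.ω₁).im) (h2 : IsAlgebraic ℚ L.g₂)
    (h3 : IsAlgebraic ℚ L.g₃) (hA : Pr L ⊆ A) : N1 (L.ω₂ / L.ω₁) ⊆ clo ⊥ A := by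
  obtain ⟨h0, h1⟩ := lat_scale h
  have m1 : L.ω₁ ∈ clo ⊥ A := subset_clo (hA (Or.inl rfl))
  have m2 : L.ω₂ ∈ clo ⊥ A := subset_clo (hA (Or.inr (Or.inl rfl)))
  have m3 : eta L L.ω₁ ∈ clo ⊥ A := subset_clo (hA (Or.inr (Or.inr (Or.inl rfl))))
  have e1 : Pool.Agent.Y685.h1 (L.ω₂ / L.ω₁) = L.ω₁ * eta L L.ω₁ := by
    have h4 := eta_scale h0 h1 (l := 1) (by
      rw [mem_LC h]
      exact ⟨1, 0, by simp⟩)
    rw [mul_one] at h4
    rw [h4, mul_inv_cancel_left₀ h0]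
    rfl
  have e2 : (LC (L.ω₂ / L.ω₁)).g₂ = L.ω₁ ^ 4 * L.g₂ := by
    rw [g2_scale h0 h1, mul_inv_cancel_left₀ (pow_ne_zero _ h0)]
  have e3 : (LC (L.ω₂ / L.ω₁)).g₃ = L.ω₁ ^ 6 * L.g₃ := by
    rw [g3_scale h0 h1, mul_inv_cancel_left₀ (pow_ne_zero _ h0)]
  rintro x (rfl | rfl | rfl | rfl)
  · exact div_mem m2 m1
  · rw [e1]
    exact mul_mem m1 m3
  · rw [e2]
    exact mul_mem (pow_mem m1 4) (alg_mem_clo h2)
  · rw [e3]
    exact mul_mem (pow_mem m1 6) (alg_mem_clo h3)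

/-- every curve with an algebraic invariant has a model over the algebraic numbers -/
theorem exists_model {τ : ℂ} (hτ : 0 < τ.im) (hj : IsAlgebraic ℚ (jf τ)) : ∃ L : PeriodPair,
    L.ω₂ / L.ω₁ = τ ∧ IsAlgebraic ℚ L.g₂ ∧ IsAlgebraic ℚ L.g₃ ∧
    ∀ A : Set ℂ, tpi ∈ A → N1 τ ⊆ A → Pr L ⊆ clo ⊥ A := by
  have hd : dlf τ ≠ 0 := dlf_ne hτ
  obtain ⟨c, hc, hal2, hal3, hroot⟩ : ∃ c : ℂ, c ≠ 0 ∧ IsAlgebraic ℚ ((c ^ 4)⁻¹ * (LC τ).g₂) ∧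
      IsAlgebraic ℚ ((c ^ 6)⁻¹ * (LC τ).g₃) ∧ (c ^ 4 = (LC τ).g₂ ∨ c ^ 6 = (LC τ).g₃) := by
    by_cases h2 : (LC τ).g₂ = 0
    · have h3 : (LC τ).g₃ ≠ 0 := by
        intro h3
        apply hd
        rw [dlf, h2, h3]
        norm_num
      obtain ⟨c, hc⟩ := IsAlgClosed.exists_pow_nat_eq (LC τ).g₃ (n := 6) (by norm_num)
      have hc0 : c ≠ 0 := by
        rintro rfl
        rw [zero_pow (by norm_num)] at hc
        exact h3 hc.symm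
      refine ⟨c, hc0, ?_, ?_, Or.inr hc⟩
      · rw [h2, mul_zero]
        exact isAlgebraic_zero
      · rw [hc, inv_mul_cancel₀ h3]
        exact isAlgebraic_one
    · obtain ⟨c, hc⟩ := IsAlgClosed.exists_pow_nat_eq (LC τ).g₂ (n := 4) (by norm_num)
      have hc0 : c ≠ 0 := by
        rintro rfl
        rw [zero_pow (by norm_num)] at hc
        exact h2 hc.symm
      refine ⟨c, hc0, ?_, ?_, Or.inl hc⟩
      · rw [hc, inv_mul_cancel₀ h2]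
        exact isAlgebraic_one
      · -- the square is algebraic
        have hjne : jf τ ≠ 0 := by
          change 1728 * (LC τ).g₂ ^ 3 / dlf τ ≠ 0
          exact div_ne_zero (mul_ne_zero (by norm_num) (pow_ne_zero 3 h2)) hd
        have e1 : jf τ * ((LC τ).g₂ ^ 3 - 27 * (LC τ).g₃ ^ 2) = 1728 * (LC τ).g₂ ^ 3 := by
          change 1728 * (LC τ).g₂ ^ 3 / dlf τ * dlf τ = _
          rw [div_mul_cancel₀ _ hd]
        have e2 : ((c ^ 6)⁻¹ * (LC τ).g₃) ^ 2 = (1 - 1728 * (jf τ)⁻¹) * (27 : ℂ)⁻¹ := by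
          rw [mul_pow, inv_pow, ← pow_mul, show 6 * 2 = 4 * 3 from rfl, pow_mul, hc]
          have h3 : (LC τ).g₂ ^ 3 ≠ 0 := pow_ne_zero 3 h2
          field_simp
          linear_combination -e1
        have e3 : IsAlgebraic ℚ (((c ^ 6)⁻¹ * (LC τ).g₃) ^ 2) := by
          rw [e2]
          have a1 : IsAlgebraic ℚ ((1728 : ℕ) : ℂ) := isAlgebraic_natCast 1728
          have a2 : IsAlgebraic ℚ ((27 : ℕ) : ℂ) := isAlgebraic_natCast 27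
          have a3 := ((isAlgebraic_one (R := ℚ) (A := ℂ)).sub (a1.mul hj.inv)).mul a2.inv
          exact_mod_cast a3
        exact e3.of_pow (by norm_num)
  refine ⟨scl (LC τ) c hc, ?_, ?_, ?_, ?_⟩
  · change c * (LC τ).ω₂ / (c * (LC τ).ω₁) = τ
    rw [LC_ω₂ hτ, LC_ω₁, mul_one, mul_div_cancel_left₀ _ hc]
  · rw [g2_scale hc (fun x => ((Hm_scl (LC τ) hc).mem x).symm)]
    exact hal2
  · rw [g3_scale hc (fun x => ((Hm_scl (LC τ) hc).mem x).symm)]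
    exact hal3
  · intro A hA1 hA2
    have m0 : tpi ∈ clo ⊥ A := subset_clo hA1
    have m1 : τ ∈ clo ⊥ A := subset_clo (hA2 (Or.inl rfl))
    have m2 : Pool.Agent.Y685.h1 τ ∈ clo ⊥ A := subset_clo (hA2 (Or.inr (Or.inl rfl)))
    have m3 : (LC τ).g₂ ∈ clo ⊥ A := subset_clo (hA2 (Or.inr (Or.inr (Or.inl rfl))))
    have m4 : (LC τ).g₃ ∈ clo ⊥ A := subset_clo (hA2 (Or.inr (Or.inr (Or.inr rfl))))
    have mc : c ∈ clo ⊥ A := by
      rcases hroot with h | h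
      · exact root_mem_clo (k := 4) (by norm_num) (by rw [h]; exact m3)
      · exact root_mem_clo (k := 6) (by norm_num) (by rw [h]; exact m4)
    obtain ⟨n, -, hn⟩ := legendre (LC τ)
    rw [LC_ω₂ hτ, LC_ω₁, one_mul] at hn
    have m5 : eta (LC τ) τ ∈ clo ⊥ A := by
      have e1 : eta (LC τ) τ = τ * Pool.Agent.Y685.h1 τ + n * tpi := by
        change _ = τ * eta (LC τ) 1 + n * (2 * Real.pi * Complex.I)
        linear_combination hn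
      rw [e1]
      exact add_mem (mul_mem m1 m2) (mul_mem (intCast_mem _ n) m0)
    have e1 : eta (scl (LC τ) c hc) (c * 1) = c⁻¹ * eta (LC τ) 1 :=
      eta_scale hc (fun x => ((Hm_scl (LC τ) hc).mem x).symm) (by rw [mem_LC hτ]; exact ⟨1, 0, by simp⟩)
    have e2 : eta (scl (LC τ) c hc) (c * τ) = c⁻¹ * eta (LC τ) τ :=
      eta_scale hc (fun x => ((Hm_scl (LC τ) hc).mem x).symm) (by rw [mem_LC hτ]; exact ⟨0, 1, by simp⟩)
    have w1 : (scl (LC τ) c hc).ω₁ = c * 1 := rfl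
    have w2 : (scl (LC τ) c hc).ω₂ = c * τ := by
      change c * (LC τ).ω₂ = _
      rw [LC_ω₂ hτ]
    rintro x (rfl | rfl | rfl | rfl)
    · rw [w1, mul_one]
      exact mc
    · rw [w2]
      exact mul_mem mc m1
    · rw [w1, e1]
      exact mul_mem (inv_mem mc) m2
    · rw [w2, e2]
      exact mul_mem (inv_mem mc) m5

variable {n : ℕ}

/-- the periods of a family of lattices -/
def PrS (L : Fin n → PeriodPair) : Set ℂ := {tpi} ∪ ⋃ i, Pr (L i)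

theorem PrS_finite (L : Fin n → PeriodPair) : (PrS L).Finite :=
  (finite_singleton _).union (finite_iUnion fun i => Pr_finite (L i))

theorem rk_of_models {L : Fin n → PeriodPair} (h : ∀ i, 0 < ((L i).ω₂ / (L i).ω₁).im)
    (hal : ∀ i, IsAlgebraic ℚ (L i).g₂ ∧ IsAlgebraic ℚ (L i).g₃) :
    (MK (⊥ : IntermediateField ℚ ℂ)).eRk ({tpi} ∪ MJ.NS (range fun i => (L i).ω₂ / (L i).ω₁)) ≤
      (MK (⊥ : IntermediateField ℚ ℂ)).eRk (PrS L) := by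
  apply rk_le_of_subset_cl
  rintro x (hx | hx)
  · exact subset_cl _ (Or.inl hx)
  · obtain ⟨_, ⟨i, rfl⟩, hx⟩ := mem_iUnion₂.1 hx
    rw [← mem_clo_iff]
    exact N1_mem_clo (h i) (hal i).1 (hal i).2 (fun y hy => Or.inr (mem_iUnion.2 ⟨i, hy⟩)) hx

theorem exists_models {τ : Fin n → ℂ} (hτ : ∀ i, 0 < (τ i).im) (hj : ∀ i, IsAlgebraic ℚ (jf (τ i))) :
    ∃ L : Fin n → PeriodPair, (∀ i, (L i).ω₂ / (L i).ω₁ = τ i) ∧
    (∀ i, IsAlgebraic ℚ (L i).g₂ ∧ IsAlgebraic ℚ (L i).g₃) ∧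
    (MK (⊥ : IntermediateField ℚ ℂ)).eRk (PrS L) ≤
      (MK (⊥ : IntermediateField ℚ ℂ)).eRk ({tpi} ∪ MJ.NS (range τ)) := by
  choose L h1 h2 h3 h4 using fun i => exists_model (hτ i) (hj i)
  refine ⟨L, h1, fun i => ⟨h2 i, h3 i⟩, ?_⟩
  apply rk_le_of_subset_cl
  rintro x (hx | hx)
  · exact subset_cl _ (Or.inl hx)
  · obtain ⟨i, hx⟩ := mem_iUnion.1 hx
    rw [← mem_clo_iff]
    exact h4 i _ (Or.inl rfl) (fun y hy => Or.inr (mem_iUnion₂.2 ⟨τ i, ⟨i, rfl⟩, hy⟩)) hx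

/-- the invariants are algebraic if and only if the rank is zero -/
theorem ty_zero_iff {τ : Fin n → ℂ} {t : Fin 0 → ℂ} :
    (MK (⊥ : IntermediateField ℚ ℂ)).eRk (TY (range τ) t) ≤ ((0 : ℕ) : ℕ∞) ↔
      ∀ i, IsAlgebraic ℚ (jf (τ i)) := by
  rw [Nat.cast_zero, nonpos_iff_eq_zero, Matroid.eRk_eq_zero_iff (by
    intro x _
    exact mem_univ x)]
  constructor
  · intro h i
    have h0 : (MK (⊥ : IntermediateField ℚ ℂ)).eRk (TY (range τ) t) = 0 :=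
      (Matroid.eRk_eq_zero_iff (by intro x _; exact mem_univ x)).2 h
    have h1 := (trdeg_iff (S := TY (range τ) t) 0 0).2 (by rw [h0]; simp)
    simp only [Nat.cast_zero, add_zero, nonpos_iff_eq_zero] at h1
    rw [trdeg_eq_zero_iff] at h1
    have h2 : jf (τ i) ∈ IntermediateField.adjoin ℚ (TY (range τ) t) :=
      IntermediateField.subset_adjoin ℚ _ (Or.inl ⟨τ i, ⟨i, rfl⟩, rfl⟩)
    have h3 := h1.isAlgebraic ⟨jf (τ i), h2⟩
    exact (isAlgebraic_algebraMap_iff (algebraMap (IntermediateField.adjoin ℚ (TY (range τ) t)) ℂ).injective).2 h3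
  · rintro h x (⟨_, ⟨i, rfl⟩, rfl⟩ | ⟨i, -⟩)
    · have h1 := alg_mem_cl (h i) ∅
      rwa [Matroid.closure_empty] at h1
    · exact i.elim0

end Pool.Agent.H445.MT
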