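import Pool.Agent.H445.MX.Fin

/-!
# Failures of the inequality with a bound for the field of definition
-/

set_option autoImplicit false

open Set Module MvPolynomial
open Pool.Agent.TH813.Rel (DF MK subset_cl rk_le_of_subset_cl cl_of_base exists_derF mem_cl)
open Pool.Agent.Y685
open Pool.Agent.Y776 (T0 T0_spec be0 jf Tf Tf_lin lg lg_lin ET ET_finite)
open Pool.Agent.Y776.AxJ
open Pool.Agent.W245.EB Pool.Agent.TH813.Ell H667R3
open Pool.Agent.H445.MJ Pool.Agent.H445.MX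

noncomputable section

namespace Pool.Agent.H445.MT

variable {n s N : ℕ} {K : Subfield ℂ}

/-- the derivation of the modular invariant -/
theorem Cj_jf {D : Derivation ℚ ℂ ℂ} {τ : ℂ} (hτ : 0 < τ.im) (h : Cj D τ) :
    D (jf τ) = deriv jf τ * D τ := by
  have hd := dlf_ne hτ
  have e1 : jf τ * dlf τ = 1728 * (LC τ).g₂ ^ 3 := by
    change 1728 * (LC τ).g₂ ^ 3 / dlf τ * dlf τ = _
    rw [div_mul_cancel₀ _ hd]
  have e2 : D (jf τ * dlf τ) = D (jf τ) * dlf τ + jf τ * D (dlf τ) := by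
    rw [D.leibniz, smul_eq_mul, smul_eq_mul]
    ring
  have e3 : D (1728 * (LC τ).g₂ ^ 3) = 1728 * (3 * (LC τ).g₂ ^ 2 * D (LC τ).g₂) := by
    rw [D.leibniz, D.leibniz_pow, smul_eq_mul, smul_eq_mul, smul_eq_mul, nsmul_eq_mul,
      show D (1728 : ℂ) = 0 from by exact_mod_cast D.map_natCast 1728]
    push_cast
    ring
  have e4 : D (dlf τ) = 3 * (LC τ).g₂ ^ 2 * D (LC τ).g₂ - 54 * (LC τ).g₃ * D (LC τ).g₃ := by
    rw [dlf, map_sub, D.leibniz_pow, D.leibniz, D.leibniz_pow, smul_eq_mul, smul_eq_mul, smul_eq_mul, smul_eq_mul,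
      nsmul_eq_mul, nsmul_eq_mul, show D (27 : ℂ) = 0 from by exact_mod_cast D.map_natCast 27]
    push_cast
    ring
  have e5 : D (dlf τ) = 12 * be0 * h1 τ * dlf τ * D τ := by
    rw [e4, h.p, h.q, dlf]
    ring
  have e6 : D (jf τ) * dlf τ = (deriv jf τ * D τ) * dlf τ := by
    have h1 := e2.symm.trans ((congrArg D e1).trans e3)
    rw [e5, h.p] at h1
    rw [deriv_j hτ]
    have e7 : -31104 * be0 * (LC τ).g₂ ^ 2 * (LC τ).g₃ / dlf τ * D τ * dlf τ =
        -31104 * be0 * (LC τ).g₂ ^ 2 * (LC τ).g₃ * D τ := by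
      field_simp
    rw [e7]
    linear_combination h1 - (12 * be0 * Pool.Agent.Y685.h1 τ * D τ) * e1
  exact mul_right_cancel₀ hd e6

/-- the exponentials of a tuple -/
def EXs (t : Fin s → ℂ) : Set ℂ := range fun i => Complex.exp (t i)

/-- the numbers of the field of definition -/
def TY (S : Set ℂ) (t : Fin s → ℂ) : Set ℂ := jf '' S ∪ EXs t

theorem TY_finite {S : Set ℂ} (hS : S.Finite) (t : Fin s → ℂ) : (TY S t).Finite :=
  (hS.image _).union (finite_range _)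

theorem TY_mono {S T : Set ℂ} (h : S ⊆ T) (t : Fin s → ℂ) : TY S t ⊆ TY T t :=
  union_subset_union_left _ (image_mono h)

/-- the directions are derivations over the closed field -/
theorem Tan_le_rk {z : Fin n → ℂ} {t : Fin s → ℂ} (him : ∀ i, 0 < (z i).im) (hcm : ∀ i, ¬ CMp (z i)) :
    (finrank ℂ (Tan (PX (kd n s)) K (PhX (kd n s) (Fin.append z t))) : ℕ∞) ≤
      (MK (IFd K)).eRk (TY (range z) t) := by
  classical
  have hfin : (TY (range z) t).Finite := TY_finite (finite_range z) t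
  have : Fintype (TY (range z) t) := hfin.fintype
  rw [← rank_evS hfin]
  set w := Fin.append z t with hw
  set Δ := CX K (kd n s) w with hΔ
  let ev : Derivation ℚ ℂ ℂ →ₗ[ℂ] (Fin (n + s) → ℂ) :=
    { toFun := fun D j => D (w j)
      map_add' := fun _ _ => rfl
      map_smul' := fun _ _ => rfl }
  let f : Derivation ℚ ℂ ℂ →ₗ[ℂ] (TY (range z) t → ℂ) :=
    { toFun := fun D j => D j
      map_add' := fun _ _ => rfl
      map_smul' := fun _ _ => rfl }
  have h4 : Tan (PX (kd n s)) K (PhX (kd n s) w) ≤ Δ.map ev := by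
    intro v hv
    obtain ⟨D, hD, h5⟩ := Tan_CX hv
    exact ⟨D, hD, funext h5⟩
  have h5 : finrank ℂ (Δ.map ev) ≤ finrank ℂ (Δ.map f) := by
    refine finrank_map_le Δ f ev ?_
    intro D hD h0
    have h6 : ∀ x ∈ TY (range z) t, D x = 0 := fun x hx => congrFun h0 ⟨x, hx⟩
    funext j
    change D (w j) = 0
    refine Fin.addCases (fun j => ?_) (fun j => ?_) j
    · rw [hw, Fin.append_left]
      have h7 := hD.2.1 (Fin.castAdd s j) (kd_left n s j)
      rw [hw, Fin.append_left] at h7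
      have h8 := Cj_jf (him j) h7
      rw [h6 _ (Or.inl ⟨z j, ⟨j, rfl⟩, rfl⟩)] at h8
      exact (mul_eq_zero.1 h8.symm).resolve_left (dj_ne (him j) (hcm j))
    · rw [hw, Fin.append_right]
      have h7 := hD.2.2 (Fin.natAdd n j) (kd_right n s j)
      rw [hw, Fin.append_right] at h7
      have h8 : D (Complex.exp (t j)) = 0 := h6 _ (Or.inr ⟨j, rfl⟩)
      unfold Tf lg at h7
      rw [h8, zero_div, sub_zero] at h7
      exact h7
  have h6 : Δ.map f ≤ LinearMap.range (evS (IFd K) (TY (range z) t)) := by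
    rintro _ ⟨D, hD, rfl⟩
    exact ⟨⟨D, hD.1⟩, rfl⟩
  have h7 := Submodule.finrank_mono h6
  have h8 := Submodule.finrank_mono h4
  exact_mod_cast h8.trans (h5.trans h7)

theorem jf_mem (hK : FldX K) {τ : ℂ} (h0 : τ ∈ K) : jf τ ∈ K := by
  have e2 : (LC τ).g₂ ∈ K := hK.val τ h0 1
  have e3 : (LC τ).g₃ ∈ K := hK.val τ h0 2
  change 1728 * (LC τ).g₂ ^ 3 / ((LC τ).g₂ ^ 3 - 27 * (LC τ).g₃ ^ 2) ∈ K
  have h1 : ∀ m : ℕ, (m : ℂ) ∈ K := fun m => natCast_mem K m
  exact div_mem (mul_mem (by exact_mod_cast h1 1728) (pow_mem e2 3))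
    (sub_mem (pow_mem e2 3) (mul_mem (by exact_mod_cast h1 27) (pow_mem e3 2)))

/-- the exponential of a rational combination -/
theorem exp_span {C : IntermediateField ℚ ℂ} {z : Fin n → ℂ} {v : ℂ}
    (hv : v ∈ Submodule.span ℚ (range z)) : Complex.exp v ∈ (MK C).closure (EXs z) := by
  rw [← mem_clo_iff]
  intro D hD h
  rw [Submodule.mem_span_range_iff_exists_fun] at hv
  obtain ⟨q, rfl⟩ := hv
  have h1 : lg D (∑ j, q j • z j) = 0 := by
    rw [lg_lin]
    refine Finset.sum_eq_zero fun j _ => ?_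
    have h2 : lg D (z j) = 0 := by
      unfold lg
      rw [h _ ⟨j, rfl⟩, zero_div]
    rw [h2, mul_zero]
  unfold lg at h1
  exact (div_eq_zero_iff.1 h1).resolve_right (Complex.exp_ne_zero _)

/-- **the field of definition of the part in the closed field** -/
theorem type_le (hK : FldX K) {z : Fin n → ℂ} {t : Fin s → ℂ} (him : ∀ i, 0 < (z i).im)
    (hcm : ∀ i, ¬ CMp (z i)) {S₀ : Set ℂ} (hS₀ : S₀.Finite) (hS₀K : S₀ ⊆ K) {n₀ s₀ : ℕ} {z₀ : Fin n₀ → ℂ}
    {t₀ : Fin s₀ → ℂ} (hz : ∀ i, z₀ i ∈ range z ∧ z₀ i ∈ K)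
    (ht : ∀ i, t₀ i ∈ Submodule.span ℚ (range t) ∧ t₀ i ∈ K) :
    (MK (⊥ : IntermediateField ℚ ℂ)).eRk (TY (range z₀ ∪ S₀) t₀) +
      (finrank ℂ (Tan (PX (kd n s)) K (PhX (kd n s) (Fin.append z t))) : ℕ∞) ≤
      (MK (⊥ : IntermediateField ℚ ℂ)).eRk (TY (range z ∪ S₀) t) := by
  have hA : (TY (range z₀ ∪ S₀) t₀).Finite := TY_finite ((finite_range z₀).union hS₀) t₀
  have hB : (TY (range z) t).Finite := TY_finite (finite_range z) t
  have h1 : TY (range z₀ ∪ S₀) t₀ ∪ TY (range z) t ⊆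
      (MK (⊥ : IntermediateField ℚ ℂ)).closure (TY (range z ∪ S₀) t) := by
    rintro x ((⟨y, hy | hy, rfl⟩ | ⟨i, rfl⟩) | hx)
    · obtain ⟨i, rfl⟩ := hy
      exact subset_cl _ (Or.inl ⟨_, Or.inl (hz i).1, rfl⟩)
    · exact subset_cl _ (Or.inl ⟨_, Or.inr hy, rfl⟩)
    · exact (MK _).closure_subset_closure subset_union_right (exp_span (ht i).1)
    · exact subset_cl _ (TY_mono subset_union_left t hx)
  have h2 := rk_le_of_subset_cl h1
  rw [rank_add hA hB] at h2
  refine le_trans (add_le_add_right ?_ _) h2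
  have h3 : clo ⊥ (TY (range z₀ ∪ S₀) t₀) ≤ IFd K := by
    apply hK.clo_le bot_le
    rintro x (⟨y, hy | hy, rfl⟩ | ⟨i, rfl⟩)
    · obtain ⟨i, rfl⟩ := hy
      exact jf_mem hK (hz i).2
    · exact jf_mem hK (hS₀K hy)
    · exact hK.exp _ (ht i).2
  exact (Tan_le_rk him hcm).trans (rank_mono_base h3 hB)

end Pool.Agent.H445.MT
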