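import Pool.Agent.H445.MT.Lev

/-!
# The dimension of the set of the failures over fields of bounded transcendence degree
-/

set_option autoImplicit false

open Set Filter Module
open scoped Topology ENNReal

noncomputable section

namespace Pool.Agent.H445.MT

open H667R3 Pool.Agent.W245.EB
open Pool.Agent.Y685 Pool.Agent.TH813.Ell Pool.Agent.Y776 Pool.Agent.Y776.Fam Pool.Agent.Y776.AxJ
open Pool.Agent.TH813.Rel (MK subset_cl rk_le_of_subset_cl)
open Pool.Agent.H445.MJ Pool.Agent.H445.MX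

variable {n s m c r : ℕ} {K : Subfield ℂ} {P : Set ℂ} {B : Submodule ℚ ℂ}

/-- the level of a point of a piece -/
theorem level_piece (hB : BaseX P B) (hP : 2 * (Real.pi : ℂ) * Complex.I ∈ P) (hK : FldX K) (hPK : P ⊆ K)
    {S₀ : Set ℂ} (hfin : S₀.Finite) (hS : ∀ z ∈ S₀, 0 < z.im ∧ CMp z) {a q : ℕ}
    (ha : a + S₀.ncard ≤ n) (hq : q ≤ s) {w : Fin (a + q) → ℂ}
    (hw : w ∈ FX (P ∪ MJ.NS S₀) B ((oC S₀).ncard + c) a q m)
    (hty : (MK (⊥ : IntermediateField ℚ ℂ)).eRk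
      (TY ((range fun i => w (Fin.castAdd q i)) ∪ S₀) (fun i => w (Fin.natAdd a i))) ≤ (r : ℕ∞)) :
    finrank ℂ (Tan (PX (kd a q)) K (PhX (kd a q) w)) ∈ LevT P B c n s m r ∧
      (finrank ℂ (Tan (PX (kd a q)) K (PhX (kd a q) w)) = 0 → ∀ j, w j ∈ K) := by
  have hSK : S₀ ⊆ K := fun z hz => hK.alg_mem (hS z hz).2.alg
  have hPK' : P ∪ MJ.NS S₀ ⊆ K := by
    rintro x (hx | hx)
    · exact hPK hx
    · exact hK.NS_mem hSK hx
  have hF := mem_FX.1 hw
  obtain ⟨⟨n₀, s₀, z₀, t₀, h1, h2, hz₀, ht₀, h3, h4⟩, h5⟩ :=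
    reduceT hF hK (hB.fin.union (NS_finite hfin)) hPK'
  have h6 := type_le hK hF.im hF.ncm hfin hSK hz₀ ht₀
  rw [append_eta w] at h3 h4 h5 h6
  set δ := finrank ℂ (Tan (PX (kd a q)) K (PhX (kd a q) w)) with hδ
  have h7 := h6.trans hty
  have hfA : (MK (⊥ : IntermediateField ℚ ℂ)).eRk (TY (range z₀ ∪ S₀) t₀) ≠ ⊤ := by
    rw [← lt_top_iff_ne_top]
    exact lt_of_le_of_lt ((MK _).eRk_le_encard _)
      (TY_finite ((finite_range z₀).union hfin) t₀).encard_lt_top
  obtain ⟨ρ, hρ⟩ := ENat.ne_top_iff_exists.1 hfA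
  rw [← hρ] at h7
  have h8 : ρ + δ ≤ r := by exact_mod_cast h7
  constructor
  · have h9 : BadT P B c (m + δ) (r - δ) (range z₀ ∪ S₀) t₀ := by
      refine ⟨BadX.of_FailX hfin hS h4, ?_⟩
      rw [← hρ]
      exact_mod_cast (by omega : ρ ≤ r - δ)
    have h10 : (range z₀ ∪ S₀).ncard ≤ n₀ + S₀.ncard :=
      (ncard_union_le _ _).trans (add_le_add (ncard_range_le z₀) le_rfl)
    obtain ⟨z', hz'⟩ := exists_range (n := (range z₀ ∪ S₀).ncard) h9.bad.fin le_rfl
      (fun h0 => by rw [h0, ncard_empty])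
    rw [← hz'] at h9
    refine ⟨by omega, min δ (a - n₀), δ - min δ (a - n₀), by omega, by omega, by omega, ?_⟩
    exact VT_extend hP (by omega) (by omega) (VT_nonempty.2 ⟨z', t₀, h9⟩)
  · intro h0
    obtain ⟨h9, h10⟩ := h5 h0
    intro j
    refine Fin.addCases (fun i => ?_) (fun j => ?_) j
    · exact h9 i
    · exact h10 j

theorem EXs_append {a : ℕ} (t : Fin s → ℂ) (y : Fin a → ℂ) : EXs (Fin.append t y) = EXs t ∪ EXs y := by
  ext x
  constructor
  · rintro ⟨i, rfl⟩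
    refine Fin.addCases (fun i => ?_) (fun i => ?_) i
    · beta_reduce
      rw [Fin.append_left]
      exact Or.inl ⟨i, rfl⟩
    · beta_reduce
      rw [Fin.append_right]
      exact Or.inr ⟨i, rfl⟩
  · rintro (⟨i, rfl⟩ | ⟨i, rfl⟩)
    · exact ⟨Fin.castAdd a i, by beta_reduce; rw [Fin.append_left]⟩
    · exact ⟨Fin.natAdd s i, by beta_reduce; rw [Fin.append_right]⟩

/-- adding generic points and exponents -/
theorem BadT.generic {S : Set ℂ} {t : Fin s → ℂ} {b a : ℕ} (hr : b + a ≤ r)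
    (h : BadT P B c (m + (b + a)) (r - (b + a)) S t) (hK : FldX K)
    (hBK : ∀ x ∈ B, x ∈ K) (hS : S ⊆ K) (ht : ∀ i, t i ∈ K) {w : Fin (b + a) → ℂ} (hw : w ∈ GenX K b a) :
    BadT P B c m r (S ∪ range fun i => w (Fin.castAdd a i)) (Fin.append t fun i => w (Fin.natAdd b i)) := by
  refine ⟨BadX.generic h.bad hK hBK hS ht hw, ?_⟩
  set x : Fin b → ℂ := fun i => w (Fin.castAdd a i) with hx
  set y : Fin a → ℂ := fun i => w (Fin.natAdd b i) with hy
  have e : TY (S ∪ range x) (Fin.append t y) = TY S t ∪ (jf '' range x ∪ EXs y) := by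
    unfold TY
    rw [image_union, EXs_append]
    ext v
    simp only [mem_union]
    tauto
  rw [e]
  have h1 : (jf '' range x ∪ EXs y).encard ≤ ((b + a : ℕ) : ℕ∞) := by
    refine (encard_union_le _ _).trans ?_
    rw [Nat.cast_add]
    refine add_le_add ?_ ?_
    · refine (encard_image_le _ _).trans ?_
      rw [← image_univ]
      refine (encard_image_le _ _).trans ?_
      rw [encard_univ]
      simp
    · unfold EXs
      rw [← image_univ]
      refine (encard_image_le _ _).trans ?_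
      rw [encard_univ]
      simp
  refine ((MK _).eRk_union_le_eRk_add_encard _ _).trans ((add_le_add h.ty h1).trans ?_)
  exact_mod_cast (by omega : r - (b + a) + (b + a) ≤ r)

theorem lowerT (hB : BaseX P B) {d : ℕ} (hd : d ∈ LevT P B c n s m r) :
    ((2 * d : ℕ) : ℝ≥0∞) ≤ dimH (VT P B c n s m r) := by
  obtain ⟨hr, b, a, h1, h2, rfl, h3⟩ := hd
  obtain ⟨n', rfl⟩ : ∃ n', n = n' + b := ⟨n - b, by omega⟩
  obtain ⟨s', rfl⟩ : ∃ s', s = s' + a := ⟨s - a, by omega⟩
  rw [Nat.add_sub_cancel, Nat.add_sub_cancel] at h3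
  obtain ⟨z, t, h4⟩ := VT_nonempty.1 h3
  obtain ⟨K, hK, -, hS, hBK⟩ := hB.exists_field (S := range z ∪ range t)
    ((countable_range z).union (countable_range t))
  have h5 : ∀ w ∈ GenX K b a, BadT P B c m r (range (Fin.append z fun i => w (Fin.castAdd a i)))
      (Fin.append t fun i => w (Fin.natAdd b i)) := fun w hw => by
    rw [range_append]
    exact BadT.generic hr h4 hK hBK (fun x hx => hS (Or.inl hx)) (fun i => hS (Or.inr ⟨i, rfl⟩)) hw
  let σ : Fin (b + a) → Fin ((n' + b) + (s' + a)) := Fin.addCases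
    (fun i => Fin.castAdd _ (Fin.natAdd n' i)) (fun i => Fin.natAdd _ (Fin.natAdd s' i))
  let π : (Fin ((n' + b) + (s' + a)) → ℂ) →L[ℂ] (Fin (b + a) → ℂ) :=
    ContinuousLinearMap.pi fun j => ContinuousLinearMap.proj (σ j)
  refine (dimH_GenX hK.cnt b a).trans (le_trans (dimH_mono ?_)
    (π.lipschitz.dimH_image_le (VT P B c (n' + b) (s' + a) m r)))
  intro w hw
  refine ⟨Fin.append (Fin.append z fun i => w (Fin.castAdd a i))
    (Fin.append t fun i => w (Fin.natAdd b i)), append_mem_VT.2 (h5 w hw), ?_⟩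
  funext j
  change Fin.append (Fin.append z fun i => w (Fin.castAdd a i))
    (Fin.append t fun i => w (Fin.natAdd b i)) (σ j) = w j
  refine Fin.addCases (fun i => ?_) (fun i => ?_) j
  · simp only [σ, Fin.addCases_left, Fin.append_left, Fin.append_right]
  · simp only [σ, Fin.addCases_right, Fin.append_right]

/-- the good codes -/
def GoodT (C : CodeX B n s) : Prop :=
  (∀ z ∈ spC C.1, 0 < z.im ∧ CMp z) ∧ C.1.1 + (spC C.1).ncard ≤ n ∧ C.2.1 ≤ s

/-- the piece of a code -/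
def pcT (P : Set ℂ) (B : Submodule ℚ ℂ) (c m r : ℕ) (C : CodeX B n s) : Set (Fin (C.1.1 + C.2.1) → ℂ) :=
  {w | w ∈ pcX P B c m C ∧ (MK (⊥ : IntermediateField ℚ ℂ)).eRk
    (TY ((range fun i => w (Fin.castAdd C.2.1 i)) ∪ spC C.1) (fun i => w (Fin.natAdd C.1.1 i))) ≤ (r : ℕ∞)}

theorem coverT {v : Fin (n + s) → ℂ} (hv : v ∈ VT P B c n s m r) : ∃ C : CodeX B n s,
    GoodT C ∧ v ∈ recX C '' pcT P B c m r C := by
  classical
  set z : Fin n → ℂ := fun i => v (Fin.castAdd s i) with hz'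
  set t : Fin s → ℂ := fun i => v (Fin.natAdd n i) with ht'
  have hv' : BadT P B c m r (range z) t := hv
  have hz := hv'.bad
  obtain ⟨a, w, σ, h1, h2, h3, hσ, h4⟩ := hz.choose
  have h5 : ∀ i, ∃ c : (Fin a × Mat) ⊕ {s : ℂ // CMp s}, (match c with
      | Sum.inl (k, q) => ((q.1 0 : ℂ) * w k + q.1 1) / ((q.1 2 : ℂ) * w k + q.1 3)
      | Sum.inr s => (s : ℂ)) = z i ∧ (∀ s, c = Sum.inr s → (s : ℂ) = z i) ∧
      ((∃ s, c = Sum.inr s) ↔ CMp (z i)) := by
    intro i
    by_cases hcm : CMp (z i)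
    · refine ⟨Sum.inr ⟨z i, hcm⟩, rfl, ?_, ⟨fun _ => hcm, fun _ => ⟨_, rfl⟩⟩⟩
      intro s hs
      rw [← Sum.inr_injective hs]
    · obtain ⟨k, p, q, r, t, h6, h7⟩ := h2 (z i) ⟨i, rfl⟩ hcm
      have hne : (r : ℂ) * w k + t ≠ 0 := den_ne (h4.im k) (by
        rintro ⟨h8, h9⟩
        rw [h8, h9] at h6
        simp at h6)
      refine ⟨Sum.inl (k, ⟨![p, q, r, t], h6⟩), ?_, ?_, ?_⟩
      · change ((p : ℂ) * w k + q) / ((r : ℂ) * w k + t) = z i
        rw [div_eq_iff hne, h7]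
      · intro s hs
        cases hs
      · refine ⟨?_, fun h => absurd h hcm⟩
        rintro ⟨s, hs⟩
        cases hs
  choose c' hc1 hc2 hc3 using h5
  choose e b hσ using hσ
  have hsp : spC (⟨a, c'⟩ : Code n) = cmS (range z) := by
    ext s
    constructor
    · rintro ⟨i, s', h6, rfl⟩
      have h7 := hc2 i s' h6
      exact ⟨⟨i, h7.symm⟩, s'.2⟩
    · rintro ⟨⟨i, rfl⟩, h6⟩
      obtain ⟨s', hs'⟩ := (hc3 i).2 h6
      exact ⟨i, s', hs', (hc2 i s' hs').symm⟩
  refine ⟨(⟨a, c'⟩, ⟨dimQ B t, fun i => (e i, b i)⟩), ⟨?_, ?_, dimQ_le B t⟩,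
    Fin.append w (fun i => t (σ i)), ⟨?_, ?_⟩, ?_⟩
  · simp only [hsp]
    exact fun x hx => ⟨hz.im x hx.1, hx.2⟩
  · simp only [hsp]
    exact h3.trans (ncard_range_le z)
  · unfold pcX
    simp only [hsp]
    exact append_mem_FX.2 h4
  · simp only [hsp, Fin.append_left, Fin.append_right]
    refine le_trans ((MK _).eRk_mono ?_) hv'.ty
    rintro x (⟨y, hy | hy, rfl⟩ | ⟨i, rfl⟩)
    · obtain ⟨k, rfl⟩ := hy
      exact Or.inl ⟨_, h1 k, rfl⟩
    · exact Or.inl ⟨_, hy.1, rfl⟩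
    · exact Or.inr ⟨σ i, rfl⟩
  · funext i
    unfold recX
    refine Fin.addCases (fun i => ?_) (fun i => ?_) i
    · simp only [Fin.append_left]
      have h6 := hc1 i
      unfold rec1
      rcases hci : c' i with ⟨k, q⟩ | s
      · rw [hci] at h6
        simp only [hci]
        exact h6
      · rw [hci] at h6
        simp only [hci]
        exact h6
    · simp only [Fin.append_right]
      rw [show v (Fin.natAdd n i) = t i from rfl, hσ i]
      congr 1

/-- **The dimension formula** -/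
theorem dimVT (hB : BaseX P B) (hP : 2 * (Real.pi : ℂ) * Complex.I ∈ P) :
    dimH (VT P B c n s m r) = (2 * sSup (LevT P B c n s m r) : ℕ) := by
  apply le_antisymm
  · obtain ⟨K, hK, hPK, -, -⟩ := hB.exists_field (S := ∅) Set.countable_empty
    let ι := {C : CodeX B n s // GoodT C}
    have hc : Countable (CodeX B n s) := countable_CodeX hB
    have h1 : VT P B c n s m r ⊆ ⋃ C : ι, recX C.1 '' pcT P B c m r C.1 := by
      intro z hz
      obtain ⟨C, hC, h⟩ := coverT hz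
      exact mem_iUnion.2 ⟨⟨C, hC⟩, h⟩
    refine (dimH_mono h1).trans ?_
    rw [dimH_iUnion]
    refine iSup_le fun C => ?_
    have h2 : pcT P B c m r C.1 ⊆ UX (kd C.1.1.1 C.1.2.1) := fun w hw => by
      rw [← append_eta w]
      exact append_mem_UX (mem_FX.1 hw.1).im
    refine ((recX_contDiff C.1).dimH_image_le (convex_UX _) h2).trans ?_
    refine (dimH_mono ?_).trans (dimH_Tan (P := PX (kd C.1.1.1 C.1.2.1)) (K := K)
      (Φ := PhX (kd C.1.1.1 C.1.2.1)) hK.cnt (isOpen_UX (kd C.1.1.1 C.1.2.1))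
      (fun x hx s₀ => PhX_der _ hx s₀) (sSup (LevT P B c n s m r))).1
    intro w hw
    exact ⟨h2 hw, le_csSup LevT_bdd (level_piece hB hP hK hPK (spC_finite _) C.2.1 C.2.2.1 C.2.2.2 hw.1 hw.2).1⟩
  · rcases Set.eq_empty_or_nonempty (LevT P B c n s m r) with h | h
    · rw [h, csSup_empty]
      simp
    · exact lowerT hB (Nat.sSup_mem h LevT_bdd)

/-- **Countability** -/
theorem countableVT (hB : BaseX P B) (hP : 2 * (Real.pi : ℂ) * Complex.I ∈ P) :
    (VT P B c n s m r).Countable ↔ 1 ∉ LevT P B c n s m r := by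
  constructor
  · intro h h1
    have h2 := lowerT hB h1
    rw [h.dimH_zero] at h2
    norm_num at h2
  · intro h
    obtain ⟨K, hK, hPK, -, -⟩ := hB.exists_field (S := ∅) Set.countable_empty
    let ι := {C : CodeX B n s // GoodT C}
    have hc : Countable (CodeX B n s) := countable_CodeX hB
    have h1 : VT P B c n s m r ⊆ ⋃ C : ι, recX C.1 '' pcT P B c m r C.1 := by
      intro z hz
      obtain ⟨C, hC, h⟩ := coverT hz
      exact mem_iUnion.2 ⟨⟨C, hC⟩, h⟩
    refine (countable_iUnion fun C => ?_).mono h1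
    refine Set.Countable.image ?_ _
    refine Set.Countable.mono ?_ (Set.countable_univ_pi fun _ : Fin (C.1.1.1 + C.1.2.1) => hK.cnt)
    intro w hw j _
    obtain ⟨h2, h3⟩ := level_piece hB hP hK hPK (spC_finite _) C.2.1 C.2.2.1 C.2.2.2 hw.1 hw.2
    refine h3 ?_ j
    by_contra h0
    exact h (LevT_down hP (Nat.one_le_iff_ne_zero.2 h0) h2)

theorem VT_bound (hP : 2 * (Real.pi : ℂ) * Complex.I ∈ P) (h : (VT P B 1 n s m r).Nonempty) : m ≤ 3 * n + s := by
  obtain ⟨z, t, hz⟩ := VT_nonempty.1 h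
  exact VX_bound hP (VX_nonempty.2 ⟨z, t, hz.bad⟩)

end Pool.Agent.H445.MT
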